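import Mathlib

namespace Pool.Agent.H.MP_0e8110_lc

open Filter Topology Asymptotics

variable {X : Type} [NormedAddCommGroup X] [NormedSpace ℝ X]

theorem tendsto_T (T : X →L[ℝ] X →L[ℝ] X →L[ℝ] ℝ) {α : Type} {l : Filter α} {u v w : α → X}
    {a b c : X} (hu : Tendsto u l (𝓝 a)) (hv : Tendsto v l (𝓝 b)) (hw : Tendsto w l (𝓝 c)) :
    Tendsto (fun k => T (u k) (v k) (w k)) l (𝓝 (T a b c)) := by
  have hc : Continuous (fun p : X × X × X => T p.1 p.2.1 p.2.2) := by fun_prop
  have h := (hc.tendsto (a, b, c)).comp (hu.prodMk_nhds (hv.prodMk_nhds hw))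
  simpa only [Function.comp_def] using h

theorem lim_nonneg {α : Type} {l : Filter α} [l.NeBot] {s u : α → ℝ} {M a : ℝ}
    (hs : Tendsto s l atTop) (hu : Tendsto u l (𝓝 a)) (h : ∀ᶠ j in l, M ≤ s j * u j) :
    0 ≤ a := by
  have h0 : Tendsto (fun j => M / s j) l (𝓝 0) := tendsto_const_nhds.div_atTop hs
  refine le_of_tendsto_of_tendsto h0 hu ?_
  filter_upwards [h, hs.eventually_gt_atTop 0] with j hj hp
  rw [div_le_iff₀ hp]; linarith

/-- The recurrence and boundedness hypothesis along directions of `K`. -/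
def Rec (T : X →L[ℝ] X →L[ℝ] X →L[ℝ] ℝ) (S K : Set X) : Prop :=
  ∀ x ∈ S, ∀ v ∈ K, ∃ (t : ℕ → ℝ) (e : ℕ → X) (M : ℝ), Tendsto t atTop atTop ∧
    Tendsto e atTop (𝓝 0) ∧ ∀ᶠ j in atTop, x + e j + t j • v ∈ S ∧
      M ≤ T (x + e j + t j • v) (x + e j + t j • v) (x + e j + t j • v)

section
variable {T : X →L[ℝ] X →L[ℝ] X →L[ℝ] ℝ} (s12 : ∀ u v w, T u v w = T v u w)
  (s23 : ∀ u v w, T u v w = T u w v) {S K : Set X} (H : Rec T S K)
include s12 s23

theorem cube_add (p q : X) : T (p + q) (p + q) (p + q) =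
    T p p p + 3 * T p p q + 3 * T p q q + T q q q := by
  simp only [map_add, add_apply]
  rw [s23 p q p, s12 q p p, s23 p q p, s12 q p q, s23 q q p, s12 q p q]
  ring

omit s12 in
theorem sq_add (a p q : X) : T a (p + q) (p + q) = T a p p + 2 * T a p q + T a q q := by
  simp only [map_add, add_apply]
  rw [s23 a q p]
  ring

omit s12 s23 in
theorem small {t : ℕ → ℝ} {e : ℕ → X} (x : X) (ht : Tendsto t atTop atTop)
    (he : Tendsto e atTop (𝓝 0)) :
    Tendsto (fun j => x + e j) atTop (𝓝 x) ∧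
      Tendsto (fun j => (t j)⁻¹ • (x + e j)) atTop (𝓝 0) := by
  have h1 : Tendsto (fun j => x + e j) atTop (𝓝 x) := by simpa using he.const_add x
  refine ⟨h1, ?_⟩
  simpa using ht.inv_tendsto_atTop.smul h1

include H

omit s12 s23 in
theorem facta {x v : X} (hx : x ∈ S) (hv : v ∈ K) : 0 ≤ T v v v := by
  obtain ⟨t, e, M, ht, he, h⟩ := H x hx v hv
  obtain ⟨h1, h2⟩ := small x ht he
  have h3 : Tendsto (fun j => (t j)⁻¹ • (x + e j) + v) atTop (𝓝 v) := by
    simpa using h2.add_const v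
  refine lim_nonneg (M := M) (s := fun j => t j * t j * t j)
    ((ht.atTop_mul_atTop₀ ht).atTop_mul_atTop₀ ht) (tendsto_T T h3 h3 h3) ?_
  filter_upwards [h, ht.eventually_gt_atTop 0] with j hj hp
  have e1 : x + e j + t j • v = t j • ((t j)⁻¹ • (x + e j) + v) := by
    rw [smul_add, smul_smul, mul_inv_cancel₀ hp.ne', one_smul]
  have h4 := hj.2
  rw [e1] at h4
  simp only [map_smul, smul_apply, smul_eq_mul] at h4
  linarith

theorem factb {x v : X} (hx : x ∈ S) (hv : v ∈ K) (h0 : T v v v = 0) : 0 ≤ T v v x := by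
  obtain ⟨t, e, M, ht, he, h⟩ := H x hx v hv
  obtain ⟨h1, h2⟩ := small x ht he
  have hc : Tendsto (fun _ : ℕ => v) atTop (𝓝 v) := tendsto_const_nhds
  have h3 := (((tendsto_T T hc hc h1).const_mul 3).add
    ((tendsto_T T h2 h1 hc).const_mul 3)).add (tendsto_T T h2 h2 h1)
  have := lim_nonneg (M := M) (s := fun j => t j * t j) (ht.atTop_mul_atTop₀ ht) h3 (by
    filter_upwards [h, ht.eventually_gt_atTop 0] with j hj hp
    have h4 := hj.2
    rw [cube_add s12 s23] at h4
    generalize x + e j = z at h4 ⊢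
    simp only [map_smul, smul_apply, smul_eq_mul, h0] at h4 ⊢
    rw [s12 z v v, s23 v z v] at h4
    have : t j * t j * (3 * T v v z + 3 * ((t j)⁻¹ * T z z v) + (t j)⁻¹ * ((t j)⁻¹ * T z z z)) =
        T z z z + 3 * (t j * T z z v) + 3 * (t j * (t j * T v v z)) := by
      field_simp; ring
    rw [this]; linarith)
  simp only [map_zero, zero_apply] at this
  linarith

theorem factc {x v : X} (hv : v ∈ K) (h0 : T v v v = 0) (h00 : ∀ s ∈ S, T v v s = 0)
    (hx : x ∈ S) : 0 ≤ T v x x := by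
  obtain ⟨t, e, M, ht, he, h⟩ := H x hx v hv
  obtain ⟨h1, h2⟩ := small x ht he
  have hc : Tendsto (fun _ : ℕ => v) atTop (𝓝 v) := tendsto_const_nhds
  have h3 := ((tendsto_T T hc h1 h1).const_mul 3).add (tendsto_T T h2 h1 h1)
  have := lim_nonneg (M := M) (s := fun j => t j) ht h3 (by
    filter_upwards [h, ht.eventually_gt_atTop 0] with j hj hp
    have h4 := hj.2
    have h5 := h00 _ hj.1
    rw [cube_add s12 s23] at h4
    rw [map_add] at h5
    generalize x + e j = z at h4 h5 ⊢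
    simp only [map_smul, smul_apply, smul_eq_mul, h0] at h4 h5 ⊢
    rw [s12 z v v, s23 v z v, s23 z z v, s12 z v z] at h4
    have h6 : T v v z = 0 := by linarith
    rw [h6] at h4
    have : t j * (3 * T v z z + (t j)⁻¹ * T z z z) = T z z z + 3 * (t j * T v z z) := by
      field_simp; ring
    rw [this]; linarith)
  simp only [map_zero, zero_apply] at this
  linarith

omit s12 s23 in
theorem facta' {a x v : X} (ha : ∀ s ∈ S, 0 ≤ T a s s) (hx : x ∈ S) (hv : v ∈ K) :
    0 ≤ T a v v := by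
  obtain ⟨t, e, M, ht, he, h⟩ := H x hx v hv
  obtain ⟨h1, h2⟩ := small x ht he
  have h3 : Tendsto (fun j => (t j)⁻¹ • (x + e j) + v) atTop (𝓝 v) := by
    simpa using h2.add_const v
  have hc : Tendsto (fun _ : ℕ => a) atTop (𝓝 a) := tendsto_const_nhds
  refine lim_nonneg (M := 0) (s := fun j => t j * t j)
    (ht.atTop_mul_atTop₀ ht) (tendsto_T T hc h3 h3) ?_
  filter_upwards [h, ht.eventually_gt_atTop 0] with j hj hp
  have e1 : x + e j + t j • v = t j • ((t j)⁻¹ • (x + e j) + v) := by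
    rw [smul_add, smul_smul, mul_inv_cancel₀ hp.ne', one_smul]
  have h4 := ha _ hj.1
  rw [e1] at h4
  simp only [map_smul, smul_apply, smul_eq_mul] at h4
  linarith

omit s12 in
theorem factb' {a x v : X} (ha : ∀ s ∈ S, 0 ≤ T a s s) (hx : x ∈ S) (hv : v ∈ K)
    (h0 : T a v v = 0) : 0 ≤ T a v x := by
  obtain ⟨t, e, M, ht, he, h⟩ := H x hx v hv
  obtain ⟨h1, h2⟩ := small x ht he
  have hc : Tendsto (fun _ : ℕ => v) atTop (𝓝 v) := tendsto_const_nhds
  have hc' : Tendsto (fun _ : ℕ => a) atTop (𝓝 a) := tendsto_const_nhds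
  have h3 := ((tendsto_T T hc' hc h1).const_mul 2).add (tendsto_T T hc' h2 h1)
  have := lim_nonneg (M := 0) (s := fun j => t j) ht h3 (by
    filter_upwards [h, ht.eventually_gt_atTop 0] with j hj hp
    have h4 := ha _ hj.1
    rw [sq_add s23] at h4
    generalize x + e j = z at h4 ⊢
    simp only [map_smul, smul_apply, smul_eq_mul, h0] at h4 ⊢
    rw [s23 a z v] at h4
    have : t j * (2 * T a v z + (t j)⁻¹ * T a z z) = T a z z + 2 * (t j * T a v z) := by
      field_simp; ring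
    rw [this]; linarith)
  simp only [map_zero, zero_apply] at this
  linarith

end

end Pool.Agent.H.MP_0e8110_lc
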