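import Mathlib

namespace Pool.Agent.H.MP_0e8110_lc

open Filter Topology Asymptotics

variable {X : Type} [NormedAddCommGroup X] [NormedSpace ℝ X] [FiniteDimensional ℝ X]

theorem ultra_lim (l : Ultrafilter ℕ) (x : ℕ → X) (C : ℝ) (h : ∀ᶠ k in (l : Filter ℕ), ‖x k‖ ≤ C) :
    ∃ z, Tendsto x l (𝓝 z) := by
  have hc : IsCompact (Metric.closedBall (0 : X) C) := isCompact_closedBall _ _
  obtain ⟨z, -, hz⟩ := hc.ultrafilter_le_nhds (l.map x) (by
    rw [le_principal_iff]
    simpa [Ultrafilter.mem_coe, Ultrafilter.mem_map, Filter.Eventually, Set.preimage] using h)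
  exact ⟨z, hz⟩

omit [FiniteDimensional ℝ X] in
theorem pick_phi {ι : Type} [Fintype ι] (ρ : ι → X →L[ℝ] ℝ) (l : Ultrafilter ℕ) (x : ℕ → X)
    (d : X) (hd : ‖d‖ = 1) (hρ : ∀ j, ρ j d ≤ 0)
    (hx : ∀ᶠ k in (l : Filter ℕ), ∀ j, ρ j (x k) ≤ 0) :
    ∃ φ : X →L[ℝ] ℝ, φ d = 1 ∧ ∀ᶠ k in (l : Filter ℕ), ∀ j, ρ j (x k - φ (x k) • d) ≤ 0 := by
  classical
  by_cases h0 : ∀ j, ρ j d = 0
  · obtain ⟨g, -, hg⟩ := exists_dual_vector ℝ d (by rw [hd]; norm_num)
    refine ⟨g, by simpa [hd] using hg, ?_⟩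
    filter_upwards [hx] with k hk j
    simpa [h0 j] using hk j
  · push Not at h0
    obtain ⟨j0, hj0⟩ := h0
    have hne : (Finset.univ.filter (fun j => ρ j d < 0)).Nonempty :=
      ⟨j0, by simpa using lt_of_le_of_ne (hρ j0) hj0⟩
    have hex : ∀ k, ∃ j, ρ j d < 0 ∧ ∀ j', ρ j' d < 0 →
        ρ j (x k) / ρ j d ≤ ρ j' (x k) / ρ j' d := by
      intro k
      obtain ⟨j, hj, hm⟩ := Finset.exists_min_image _ (fun j => ρ j (x k) / ρ j d) hne
      exact ⟨j, by simpa using hj, fun j' hj' => hm j' (by simpa using hj')⟩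
    obtain ⟨j, hj⟩ := (Ultrafilter.eventually_exists_iff (f := l)
      (P := fun j k => ρ j d < 0 ∧ ∀ j', ρ j' d < 0 →
        ρ j (x k) / ρ j d ≤ ρ j' (x k) / ρ j' d)).1 (Eventually.of_forall hex)
    have hjd : ρ j d < 0 := (hj.exists).choose_spec.1
    refine ⟨(ρ j d)⁻¹ • ρ j, by simp [inv_mul_cancel₀ hjd.ne], ?_⟩
    filter_upwards [hx, hj] with k hk hk' j'
    simp only [map_sub, map_smul, smul_apply, smul_eq_mul]
    rcases (hρ j').lt_or_eq with h | h
    · have h1 := hk'.2 j' h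
      rw [le_div_iff_of_neg h] at h1
      rw [div_eq_inv_mul] at h1
      linarith
    · rw [h]; simpa using hk j'

theorem flag {ι : Type} [Fintype ι] (ρ : ι → X →L[ℝ] ℝ) (l : Ultrafilter ℕ) :
    ∀ (N : ℕ) (V : Submodule ℝ X), Module.finrank ℝ V ≤ N → ∀ x : ℕ → X,
    (∀ᶠ k in (l : Filter ℕ), x k ∈ V ∧ ∀ j, ρ j (x k) ≤ 0) →
    ∃ (r : ℕ) (d : ℕ → X) (lam : ℕ → ℕ → ℝ) (y : ℕ → ℕ → X), y 0 = x ∧
      (∀ i < r, ∀ k, y i k = lam i k • d i + y (i + 1) k) ∧
      (∀ i < r, Tendsto (lam i) l atTop) ∧ (lam r = fun _ => 1) ∧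
      (∀ i ≤ r, Tendsto (fun k => (lam i k)⁻¹ • y i k) l (𝓝 (d i))) ∧
      (∀ i < r, y (i + 1) =O[l] y i) ∧
      (∀ i ≤ r, ∀ᶠ k in (l : Filter ℕ), y i k ∈ V ∧ ∀ j, ρ j (y i k) ≤ 0) := by
  intro N
  induction N using Nat.strong_induction_on with
  | _ N ih =>
  intro V hV x hx
  by_cases hb : ∃ C, ∀ᶠ k in (l : Filter ℕ), ‖x k‖ ≤ C
  · obtain ⟨C, hC⟩ := hb
    obtain ⟨z, hz⟩ := ultra_lim l x C hC
    refine ⟨0, fun _ => z, fun _ _ => 1, fun _ => x, rfl, by simp, by simp, rfl, ?_, by simp, ?_⟩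
    · intro i _; simpa using hz
    · intro i _; exact hx
  · push Not at hb
    have hn : Tendsto (fun k => ‖x k‖) l atTop := by
      rw [tendsto_atTop]
      intro C
      exact (hb C).mono fun k hk => hk.le
    have hpos : ∀ᶠ k in (l : Filter ℕ), 0 < ‖x k‖ := hn.eventually_gt_atTop 0
    have hu1 : ∀ᶠ k in (l : Filter ℕ), ‖‖x k‖⁻¹ • x k‖ = 1 := by
      filter_upwards [hpos] with k hk
      rw [norm_smul, norm_inv, norm_norm, inv_mul_cancel₀ hk.ne']
    obtain ⟨d, hd⟩ := ultra_lim l (fun k => ‖x k‖⁻¹ • x k) 1 (hu1.mono fun k hk => hk.le)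
    have hd1 : ‖d‖ = 1 := by
      have := hd.norm
      exact tendsto_nhds_unique this (tendsto_const_nhds.congr' (hu1.mono fun k hk => hk.symm))
    have hdV : d ∈ V := by
      refine (Submodule.closed_of_finiteDimensional V).mem_of_tendsto hd ?_
      exact hx.mono fun k hk => V.smul_mem _ hk.1
    have hdρ : ∀ j, ρ j d ≤ 0 := by
      intro j
      refine le_of_tendsto (((ρ j).continuous.tendsto d).comp hd) ?_
      filter_upwards [hx] with k hk
      simp only [Function.comp, map_smul, smul_eq_mul]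
      exact mul_nonpos_of_nonneg_of_nonpos (inv_nonneg.2 (norm_nonneg _)) (hk.2 j)
    obtain ⟨φ, hφ, hφx⟩ := pick_phi ρ l x d hd1 hdρ (hx.mono fun k hk => hk.2)
    have hφu : Tendsto (fun k => φ (‖x k‖⁻¹ • x k)) l (𝓝 1) := by
      have := (φ.continuous.tendsto d).comp hd
      rwa [hφ] at this
    have hlam : Tendsto (fun k => φ (x k)) l atTop := by
      have := hn.atTop_mul_pos one_pos hφu
      refine this.congr' ?_
      filter_upwards [hpos] with k hk
      simp only [map_smul, smul_eq_mul]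
      field_simp
    have hlim : Tendsto (fun k => (φ (x k))⁻¹ • x k) l (𝓝 d) := by
      have := (hφu.inv₀ one_ne_zero).smul hd
      simp only [inv_one, one_smul] at this
      refine this.congr' ?_
      filter_upwards [hpos] with k hk
      simp only [map_smul, smul_eq_mul, smul_smul]
      congr 1
      field_simp
    have hlt : V ⊓ LinearMap.ker (φ : X →ₗ[ℝ] ℝ) < V := by
      refine lt_of_le_of_ne inf_le_left fun h => ?_
      have : d ∈ V ⊓ LinearMap.ker (φ : X →ₗ[ℝ] ℝ) := by rw [h]; exact hdV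
      have h2 := this.2
      simp [hφ] at h2
    have hfr := Submodule.finrank_lt_finrank_of_lt hlt
    obtain ⟨r, d', lam', y', h0, h1, h2, h3, h4, h5, h6⟩ :=
      ih _ (lt_of_lt_of_le hfr hV) _ le_rfl (fun k => x k - φ (x k) • d) (by
        filter_upwards [hx, hφx] with k hk hk'
        refine ⟨⟨V.sub_mem hk.1 (V.smul_mem _ hdV), ?_⟩, hk'⟩
        simp [hφ])
    refine ⟨r + 1, fun i => Nat.casesOn i d d', fun i => Nat.casesOn i (fun k => φ (x k)) lam',
      fun i => Nat.casesOn i x y', rfl, ?_, ?_, h3, ?_, ?_, ?_⟩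
    · intro i hi k
      cases i with
      | zero => simp [h0]
      | succ i => exact h1 i (by omega) k
    · intro i hi
      cases i with
      | zero => exact hlam
      | succ i => exact h2 i (by omega)
    · intro i hi
      cases i with
      | zero => exact hlim
      | succ i => exact h4 i (by omega)
    · intro i hi
      cases i with
      | zero =>
        show y' 0 =O[l] x
        rw [h0]
        have := (ContinuousLinearMap.id ℝ X - φ.smulRight d).isBigO_comp x (l : Filter ℕ)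
        simpa using this
      | succ i => exact h5 i (by omega)
    · intro i hi
      cases i with
      | zero => exact hx
      | succ i => exact (h6 i (by omega)).mono fun k hk => ⟨hk.1.1, hk.2⟩

end Pool.Agent.H.MP_0e8110_lc
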