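import Mathlib
import Pool.Agent.H.MP_0e8110_lc.Core

namespace Pool.Agent.H.MP_0e8110_lc

open Filter Topology Asymptotics

variable {X : Type} [NormedAddCommGroup X] [NormedSpace ℝ X]

theorem pos_of_scaled {α : Type} {l : Filter α} {s u F : α → ℝ} {a : ℝ} (ha : 0 < a)
    (hu : Tendsto u l (𝓝 a)) (hs : ∀ᶠ k in l, 0 < s k) (h : ∀ᶠ k in l, s k * u k ≤ F k) :
    ∀ᶠ k in l, 0 ≤ F k := by
  filter_upwards [hu.eventually (lt_mem_nhds ha), hs, h] with k h1 h2 h3
  exact le_trans (mul_pos h2 h1).le h3

theorem scale3 (T : X →L[ℝ] X →L[ℝ] X →L[ℝ] ℝ) {a b c : ℝ} (ha : 0 < a) (hb : 0 < b) (hc : 0 < c)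
    (u v w : X) : a * b * c * T (a⁻¹ • u) (b⁻¹ • v) (c⁻¹ • w) = T u v w := by
  simp only [map_smul, smul_apply, smul_eq_mul]
  field_simp

theorem core {T : X →L[ℝ] X →L[ℝ] X →L[ℝ] ℝ} (s12 : ∀ u v w, T u v w = T v u w)
    (s23 : ∀ u v w, T u v w = T u w v) {S K : Set X} (H : Rec T S K) (V : Submodule ℝ X)
    (hSV : S ⊆ V) (hKV : K ⊆ V) (hK0 : (0 : X) ∈ K)
    (hKa : ∀ u ∈ K, ∀ v ∈ K, ∀ c : ℝ, 0 ≤ c → u + c • v ∈ K)
    (l : Filter ℕ) [l.NeBot] (x : ℕ → X) (hx : ∀ᶠ k in l, x k ∈ S)
    (hV : ∀ A : X →L[ℝ] ℝ, (∀ s ∈ S, 0 ≤ A s) → Tendsto (fun k => A (x k)) l (𝓝 0) →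
      ∀ s ∈ V, A s = 0)
    (r : ℕ) (d : ℕ → X) (lam : ℕ → ℕ → ℝ) (y : ℕ → ℕ → X) (h0 : y 0 = x)
    (h1 : ∀ i < r, ∀ k, y i k = lam i k • d i + y (i + 1) k)
    (h2 : ∀ i < r, Tendsto (lam i) l atTop) (h3 : lam r = fun _ => 1)
    (h4 : ∀ i ≤ r, Tendsto (fun k => (lam i k)⁻¹ • y i k) l (𝓝 (d i)))
    (h5 : ∀ i < r, y (i + 1) =O[l] y i) (h6 : ∀ i ≤ r, ∀ᶠ k in l, y i k ∈ V)
    (hd : ∀ i < r, d i ∈ K) : ∃ M, ∀ᶠ k in l, M ≤ T (x k) (x k) (x k) := by
  obtain ⟨x0, hx0⟩ : ∃ x0, x0 ∈ S := by
    obtain ⟨k, hk⟩ := hx.exists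
    exact ⟨_, hk⟩
  have hpos : ∀ i ≤ r, ∀ᶠ k in l, 0 < lam i k := by
    intro i hi
    rcases hi.lt_or_eq with h | h
    · exact (h2 i h).eventually_gt_atTop 0
    · subst h; rw [h3]; simp
  have hpos' : ∀ᶠ k in l, ∀ i ≤ r, 0 < lam i k := by
    have := (eventually_all_finite (Set.finite_Iic r) (l := l)
      (p := fun i k => 0 < lam i k)).2 (fun i hi => hpos i hi)
    exact this.mono fun k hk i hi => hk i hi
  have hyV : ∀ᶠ k in l, ∀ i ≤ r, y i k ∈ V := by
    have := (eventually_all_finite (Set.finite_Iic r) (l := l)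
      (p := fun i k => y i k ∈ V)).2 (fun i hi => h6 i hi)
    exact this.mono fun k hk i hi => hk i hi
  have hO : ∀ i j, i ≤ j → j ≤ r → y j =O[l] y i := by
    intro i j hij
    induction j, hij using Nat.le_induction with
    | base => intro _; exact isBigO_refl _ _
    | succ j hij ih => intro hj; exact (h5 j (by omega)).trans (ih (by omega))
  have hsm : ∀ i j, i < j → j ≤ r → Tendsto (fun k => (lam i k)⁻¹ • y j k) l (𝓝 0) := by
    intro i j hij hj
    have e1 : Tendsto (fun k => (lam i k)⁻¹ • y (i + 1) k) l (𝓝 0) := by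
      have := (h4 i (by omega)).sub_const (d i)
      rw [sub_self] at this
      refine this.congr' ?_
      filter_upwards [hpos i (by omega)] with k hk
      rw [h1 i (by omega) k, smul_add, smul_smul, inv_mul_cancel₀ hk.ne', one_smul]
      abel
    exact ((isBigO_refl (fun k => (lam i k)⁻¹) l).smul (hO (i + 1) j hij hj)).trans_tendsto e1
  have hdiff : ∀ i j, i < j → j ≤ r →
      Tendsto (fun k => (lam i k)⁻¹ • (y i k - y j k)) l (𝓝 (d i)) := by
    intro i j hij hj
    have := (h4 i (by omega)).sub (hsm i j hij hj)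
    simpa [smul_sub] using this
  have hdiff0 : ∀ i j m, i < j → j ≤ m → m ≤ r →
      Tendsto (fun k => (lam i k)⁻¹ • (y j k - y m k)) l (𝓝 0) := by
    intro i j m hij hj hm
    have := (hsm i j hij (by omega)).sub (hsm i m (by omega) hm)
    simpa [smul_sub] using this
  have hinK : ∀ k, (∀ i ≤ r, 0 < lam i k) → ∀ i j, i ≤ j → j ≤ r → y i k - y j k ∈ K := by
    intro k hk i j hij
    induction j, hij using Nat.le_induction with
    | base => intro _; simpa using hK0
    | succ j hij ih =>
      intro hj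
      have := hKa _ (ih (by omega)) _ (hd j (by omega)) _ (hk j (by omega)).le
      have e : y i k - y (j + 1) k = y i k - y j k + lam j k • d j := by
        rw [h1 j (by omega) k]; abel
      rwa [e]
  -- vanishing of a functional on the first directions
  have hlin : ∀ (A : X →L[ℝ] ℝ) (i j : ℕ), i ≤ j → j ≤ r → (∀ m, i ≤ m → m < j → A (d m) = 0) →
      ∀ k, A (y i k - y j k) = 0 := by
    intro A i j hij
    induction j, hij using Nat.le_induction with
    | base => intro _ _ k; simp
    | succ j hij ih =>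
      intro hj hA k
      have e : y i k - y (j + 1) k = y i k - y j k + lam j k • d j := by
        rw [h1 j (by omega) k]; abel
      rw [e, map_add, ih (by omega) (fun m h1 h2 => hA m h1 (by omega)) k, map_smul,
        hA j hij (by omega)]
      simp
  have lead : ∀ A : X →L[ℝ] ℝ, (∀ s ∈ S, 0 ≤ A s) → (¬ ∀ s ∈ V, A s = 0) →
      ∃ c ≤ r, 0 < A (d c) := by
    intro A hA hne
    by_contra hcon
    push Not at hcon
    have hz : ∀ i ≤ r, A (d i) = 0 := by
      intro i
      induction i using Nat.strong_induction_on with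
      | _ i ih =>
      intro hi
      refine le_antisymm (hcon i hi) ?_
      refine ge_of_tendsto ((A.continuous.tendsto _).comp (h4 i hi)) ?_
      filter_upwards [hx, hpos i hi] with k hk hp
      have := hlin A 0 i (by omega) hi (fun m _ hm => ih m hm (by omega)) k
      rw [map_sub, h0, sub_eq_zero] at this
      simp only [Function.comp, map_smul, smul_eq_mul, ← this]
      exact mul_nonneg (inv_nonneg.2 hp.le) (hA _ hk)
    refine hne (hV A hA ?_)
    have := (A.continuous.tendsto _).comp (h4 r le_rfl)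
    rw [hz r le_rfl] at this
    refine this.congr fun k => ?_
    have e := hlin A 0 r (by omega) le_rfl (fun m _ hm => hz m hm.le) k
    rw [map_sub, h0, sub_eq_zero] at e
    simp [h3, e]
  -- good b
  let good : ℕ → Prop := fun b => ∀ i < b, ∀ j < b, ∀ s ∈ V, T (d i) (d j) s = 0
  have gdiff1 : ∀ b ≤ r, good b → ∀ i < b, ∀ a, a ≤ b → ∀ m, a ≤ m → m ≤ b → ∀ k, ∀ s ∈ V,
      T (d i) (y a k - y m k) s = 0 := by
    intro b hb hg i hi a hab m ham hmb k s hs
    rw [s23]
    exact hlin (T (d i) s) a m ham (by omega) (fun j _ hj => by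
      rw [s23]; exact hg i hi j (by omega) s hs) k
  have gdiff : ∀ b ≤ r, good b → ∀ a, a ≤ b → ∀ k, ∀ s ∈ V,
      T (y a k - y b k) (y a k - y b k) s = 0 := by
    intro b hb hg a hab k s hs
    rw [s23, s12]
    refine hlin (T s (y a k - y b k)) a b hab hb (fun j _ hj => ?_) k
    rw [s23, s12, s23]
    exact gdiff1 b hb hg j hj a hab b hab le_rfl k s hs
  have cpos : ∀ b ≤ r, good b → ∀ i < b, ∀ s ∈ S, 0 ≤ T (d i) s s := by
    intro b hb hg i hi s hs
    exact factc s12 s23 H (hd i (by omega)) (hg i hi i hi _ (hKV (hd i (by omega))))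
      (fun s hs => hg i hi i hi s (hSV hs)) hs
  have drop : ∀ b ≤ r, good b → ∀ a ≤ b, ∀ᶠ k in l,
      T (y a k) (y a k) (y a k) ≤ T (x k) (x k) (x k) := by
    intro b hb hg a
    induction a with
    | zero => intro _; rw [h0]; exact Eventually.of_forall fun k => le_rfl
    | succ a ih =>
      intro ha
      filter_upwards [ih (by omega), hx, hyV, hpos'] with k hk hxk hyk hp
      refine le_trans ?_ hk
      rw [h1 a (by omega) k, cube_add s12 s23]
      have z1 := hg a (by omega) a (by omega) _ (hKV (hd a (by omega)))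
      have z2 := hg a (by omega) a (by omega) _ (hyk (a + 1) (by omega))
      have z3 : 0 ≤ T (d a) (y (a + 1) k) (y (a + 1) k) := by
        have e1 := cpos b hb hg a (by omega) _ hxk
        have e2 : x k = (y 0 k - y (a + 1) k) + y (a + 1) k := by rw [h0]; abel
        rw [e2, sq_add s23, gdiff1 b hb hg a (by omega) 0 (by omega) (a + 1) (by omega) ha k _
          (V.sub_mem (hyk 0 (by omega)) (hyk _ (by omega))),
          gdiff1 b hb hg a (by omega) 0 (by omega) (a + 1) (by omega) ha k _
          (hyk _ (by omega))] at e1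
        linarith
      simp only [map_smul, smul_apply, smul_eq_mul, z1, z2]
      have := mul_nonneg (hp a (by omega)).le z3
      linarith
  by_cases hgr : good r
  · have e := drop r le_rfl hgr r le_rfl
    have e1 := h4 r le_rfl
    simp only [h3, inv_one, one_smul] at e1
    have e2 := (tendsto_T T e1 e1 e1).eventually
      (lt_mem_nhds (show T (d r) (d r) (d r) - 1 < T (d r) (d r) (d r) by linarith))
    refine ⟨T (d r) (d r) (d r) - 1, ?_⟩
    filter_upwards [e, e2] with k hk hk'
    linarith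
  obtain ⟨b, hbr, hgb, hnb⟩ : ∃ b < r, good b ∧ ¬ good (b + 1) := by
    by_contra hcon
    push Not at hcon
    have : ∀ b ≤ r, good b := by
      intro b
      induction b with
      | zero => intro _ i hi; omega
      | succ b ih => intro hb; exact hcon b (by omega) (ih (by omega))
    exact hgr (this r le_rfl)
  obtain ⟨a, hab, hna, hlow⟩ : ∃ a ≤ b, (¬ ∀ s ∈ V, T (d a) (d b) s = 0) ∧
      ∀ i < b, T (d a) (d b) (d i) = 0 := by
    by_cases hc : ∀ i < b, ∀ s ∈ V, T (d i) (d b) s = 0
    · refine ⟨b, le_rfl, fun h => hnb ?_, fun i hi => ?_⟩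
      · intro i hi j hj s hs
        rcases (Nat.lt_succ_iff.1 hi).lt_or_eq with hi' | hi'
        · rcases (Nat.lt_succ_iff.1 hj).lt_or_eq with hj' | hj'
          · exact hgb i hi' j hj' s hs
          · rw [hj']; exact hc i hi' s hs
        · rcases (Nat.lt_succ_iff.1 hj).lt_or_eq with hj' | hj'
          · rw [hi', s12]; exact hc j hj' s hs
          · rw [hi', hj']; exact h s hs
      · rw [s23, s12]; exact hc i hi _ (hKV (hd b hbr))
    · push Not at hc
      obtain ⟨i, hi, s, hs, hne⟩ := hc
      refine ⟨i, hi.le, fun h => hne (h s hs), fun j hj => ?_⟩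
      rw [s23]; exact hgb i hi j hj _ (hKV (hd b hbr))
  obtain ⟨c, hbc, hcr, hκ⟩ : ∃ c, b ≤ c ∧ c ≤ r ∧ 0 < T (d a) (d b) (d c) := by
    by_cases hp : 0 < T (d a) (d b) (d b)
    · exact ⟨b, le_rfl, hbr.le, hp⟩
    have hA : ∀ s ∈ S, 0 ≤ T (d a) (d b) s := by
      intro s hs
      rcases hab.lt_or_eq with h | h
      · have q := cpos b hbr.le hgb a h
        exact factb' s23 H q hs (hd b hbr)
          (le_antisymm (not_lt.1 hp) (facta' H q hs (hd b hbr)))
      · subst h
        exact factb s12 s23 H hs (hd a hbr) (le_antisymm (not_lt.1 hp) (facta H hs (hd a hbr)))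
    obtain ⟨c, hc, hc'⟩ := lead (T (d a) (d b)) hA hna
    refine ⟨c, ?_, hc, hc'⟩
    by_contra h
    rw [hlow c (by omega)] at hc'
    exact lt_irrefl _ hc'
  suffices hfin : ∀ᶠ k in l, 0 ≤ T (y a k) (y a k) (y a k) by
    refine ⟨0, ?_⟩
    filter_upwards [hfin, drop b hbr.le hgb a hab] with k h1 h2
    linarith
  have hs : ∀ᶠ k in l, 0 < lam a k * lam b k * lam c k := by
    filter_upwards [hpos'] with k hk
    exact mul_pos (mul_pos (hk a (by omega)) (hk b (by omega))) (hk c hcr)
  rcases hab.lt_or_eq with hab' | hab'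
  · rcases hbc.lt_or_eq with hbc' | hbc'
    · -- a < b < c
      have t1 := tendsto_T T (hdiff a b hab' hbr.le) (hdiff b c hbc' hcr) (h4 c hcr)
      have t2 := tendsto_T T (hdiff0 a b c hab' hbc hcr) (hdiff b c hbc' hcr) (h4 c hcr)
      have t3 := tendsto_T T (hdiff a c (by omega) hcr) (hsm b c hbc' hcr) (h4 c hcr)
      have t4 := tendsto_T T (hsm a c (by omega) hcr) (hsm b c hbc' hcr) (h4 c hcr)
      have t := (((t1.const_mul 6).add (t2.const_mul 3)).add (t3.const_mul 3)).add t4
      simp only [map_zero, zero_apply, mul_zero, add_zero] at t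
      refine pos_of_scaled (by linarith) t hs ?_
      filter_upwards [hpos', hyV] with k hk hyk
      have pa := hk a (by omega)
      have pb := hk b (by omega)
      have pc := hk c hcr
      have e1 : y a k = (y a k - y c k) + y c k := by abel
      have e2 : y a k - y c k = (y a k - y b k) + (y b k - y c k) := by abel
      have q1 := facta H hx0 (hinK k hk a c (by omega) hcr)
      have q2 := cube_add s12 s23 (y a k - y c k) (y c k)
      rw [← e1] at q2
      have q3 := sq_add s23 (y c k) (y a k - y b k) (y b k - y c k)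
      rw [← e2] at q3
      have q4 := gdiff b hbr.le hgb a hab k _ (hyk c hcr)
      have r1 := scale3 T pa pb pc (y a k - y b k) (y b k - y c k) (y c k)
      have r2 := scale3 T pa pb pc (y b k - y c k) (y b k - y c k) (y c k)
      have r3 := scale3 T pa pb pc (y a k - y c k) (y c k) (y c k)
      have r4 := scale3 T pa pb pc (y c k) (y c k) (y c k)
      have sy : ∀ u v w, T w u v = T u v w := fun u v w => by rw [s12, s23]
      rw [sy, sy _ _ (y c k), sy _ _ (y c k), sy _ _ (y c k)] at q3
      nlinarith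
    · -- a < b = c
      subst hbc'
      have t1 := tendsto_T T (hdiff a b hab' hbr.le) (h4 b hcr) (h4 b hcr)
      have t4 := tendsto_T T (hsm a b hab' hcr) (h4 b hcr) (h4 b hcr)
      have t := (t1.const_mul 3).add t4
      simp only [map_zero, zero_apply, add_zero] at t
      refine pos_of_scaled (by linarith) t hs ?_
      filter_upwards [hpos', hyV] with k hk hyk
      have pa := hk a (by omega)
      have pb := hk b (by omega)
      have e1 : y a k = (y a k - y b k) + y b k := by abel
      have q2 := cube_add s12 s23 (y a k - y b k) (y b k)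
      rw [← e1] at q2
      have q4 := gdiff b hbr.le hgb a hab k _ (hyk b hcr)
      have q5 := gdiff b hbr.le hgb a hab k _ (V.sub_mem (hyk a (by omega)) (hyk b hcr))
      have r3 := scale3 T pa pb pb (y a k - y b k) (y b k) (y b k)
      have r4 := scale3 T pa pb pb (y b k) (y b k) (y b k)
      nlinarith
  · subst hab'
    rcases hbc.lt_or_eq with hbc' | hbc'
    · -- a = b < c
      have t1 := tendsto_T T (hdiff a c hbc' hcr) (hdiff a c hbc' hcr) (h4 c hcr)
      have t3 := tendsto_T T (hdiff a c hbc' hcr) (hsm a c hbc' hcr) (h4 c hcr)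
      have t4 := tendsto_T T (hsm a c hbc' hcr) (hsm a c hbc' hcr) (h4 c hcr)
      have t := ((t1.const_mul 3).add (t3.const_mul 3)).add t4
      simp only [map_zero, zero_apply, mul_zero, add_zero] at t
      refine pos_of_scaled (by linarith) t hs ?_
      filter_upwards [hpos', hyV] with k hk hyk
      have pa := hk a (by omega)
      have pc := hk c hcr
      have e1 : y a k = (y a k - y c k) + y c k := by abel
      have q1 := facta H hx0 (hinK k hk a c (by omega) hcr)
      have q2 := cube_add s12 s23 (y a k - y c k) (y c k)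
      rw [← e1] at q2
      have r1 := scale3 T pa pa pc (y a k - y c k) (y a k - y c k) (y c k)
      have r3 := scale3 T pa pa pc (y a k - y c k) (y c k) (y c k)
      have r4 := scale3 T pa pa pc (y c k) (y c k) (y c k)
      nlinarith
    · subst hbc'
      have t := tendsto_T T (h4 a hcr) (h4 a hcr) (h4 a hcr)
      refine pos_of_scaled hκ t hs ?_
      filter_upwards [hpos'] with k hk
      have pa := hk a (by omega)
      exact (scale3 T pa pa pa _ _ _).le

end Pool.Agent.H.MP_0e8110_lc
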