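import Mathlib
import Pool.Agent.H.MP_0e8110_lc.Main
import Pool.Agent.H.MP_0e8110_lc.Flag

namespace Pool.Agent.H.MP_0e8110_lc

open Filter Topology Asymptotics

theorem dirichlet {n : ℕ} (c : Fin n → ℝ) (ε : ℝ) (hε : 0 < ε) (N : ℕ) :
    ∃ t : ℕ, N ≤ t ∧ ∃ z : Fin n → ℤ, ∀ i, |(z i : ℝ) - t * c i| < ε := by
  have h := mapClusterPt_zero_atTop_nsmul (fun i => ((c i : ℝ) : UnitAddCircle))
  rw [mapClusterPt_iff_frequently] at h
  have h2 := (h _ (Metric.ball_mem_nhds _ hε)).and_eventually (eventually_ge_atTop N)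
  obtain ⟨t, ht, hN⟩ := h2.exists
  refine ⟨t, hN, fun i => round ((t : ℝ) * c i), fun i => ?_⟩
  rw [mem_ball_zero_iff, pi_norm_lt_iff hε] at ht
  have h3 := ht i
  rw [Pi.smul_apply, ← AddCircle.coe_nsmul, UnitAddCircle.norm_eq, nsmul_eq_mul] at h3
  rwa [abs_sub_comm]

variable {X : Type} [NormedAddCommGroup X] [NormedSpace ℝ X]

theorem recur (Γ : AddSubgroup X) (G : Set X) (hG : G ⊆ Γ) (v : X)
    (hv : v ∈ Submodule.span ℝ G) : ∃ (t : ℕ → ℝ) (e : ℕ → X), Tendsto t atTop atTop ∧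
      Tendsto e atTop (𝓝 0) ∧ ∀ j, e j + t j • v ∈ Γ ∧ e j ∈ Submodule.span ℝ G := by
  obtain ⟨n, c, g, rfl⟩ := Submodule.mem_span_set'.1 hv
  choose t ht z hz using fun j : ℕ => dirichlet c (1 / ((j : ℝ) + 1)) (by positivity) j
  refine ⟨fun j => t j, fun j => ∑ i, ((z j i : ℝ) - t j * c i) • (g i : X), ?_, ?_, fun j => ⟨?_, ?_⟩⟩
  · exact tendsto_natCast_atTop_atTop.comp (tendsto_atTop_mono ht tendsto_id)
  · have : Tendsto (fun j => ∑ i, ((z j i : ℝ) - t j * c i) • (g i : X)) atTop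
        (𝓝 (∑ i : Fin n, (0 : ℝ) • (g i : X))) := by
      refine tendsto_finsetSum _ fun i _ => Tendsto.smul_const ?_ _
      refine squeeze_zero_norm (fun j => (hz j i).le) tendsto_one_div_add_atTop_nhds_zero_nat
    simpa using this
  · rw [Finset.smul_sum, ← Finset.sum_add_distrib]
    refine Γ.sum_mem fun i _ => ?_
    rw [smul_smul, ← add_smul, sub_add_cancel, Int.cast_smul_eq_zsmul]
    exact Γ.zsmul_mem (hG (g i).2) _
  · exact Submodule.sum_mem _ fun i _ => Submodule.smul_mem _ _ (Submodule.subset_span (g i).2)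

/-- a functional is discrete on the subgroup -/
def Disc (Γ : AddSubgroup X) (A : X →L[ℝ] ℝ) : Prop :=
  ∃ δ > 0, ∀ g ∈ Γ, |A g| < δ → A g = 0

theorem dichotomy (Γ : AddSubgroup X) (A : X →L[ℝ] ℝ) (hA : Disc Γ A) (l : Ultrafilter ℕ)
    (x : ℕ → X) (hx : ∀ k, x k ∈ Γ) (h0 : ∀ k, A (x k) ≤ 0) :
    ∃ I ∈ (l : Filter ℕ), ∀ j ∈ I, ∀ᶠ k in (l : Filter ℕ), A (x k) + A (x k) - A (x j) ≤ 0 := by
  by_cases hb : ∃ C, ∀ᶠ k in (l : Filter ℕ), ‖A (x k)‖ ≤ C
  · obtain ⟨C, hC⟩ := hb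
    obtain ⟨α, hα⟩ := ultra_lim l (fun k => A (x k)) C hC
    obtain ⟨δ, hδ, hd⟩ := hA
    have hI : ∀ᶠ k in (l : Filter ℕ), |A (x k) - α| < δ / 2 := by
      have := hα.eventually (Metric.ball_mem_nhds α (half_pos hδ))
      simpa [Real.dist_eq] using this
    refine ⟨_, hI, fun j hj => ?_⟩
    filter_upwards [hI] with k hk
    have hj' : |A (x j) - α| < δ / 2 := hj
    have := hd (x k - x j) (Γ.sub_mem (hx k) (hx j)) (by
      rw [map_sub, abs_lt] at *
      constructor <;> linarith [hk.1, hk.2, hj'.1, hj'.2])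
    rw [map_sub] at this
    linarith [h0 k]
  · push Not at hb
    refine ⟨Set.univ, univ_mem, fun j _ => ?_⟩
    filter_upwards [hb ‖A (x j)‖] with k hk
    rw [Real.norm_eq_abs, Real.norm_eq_abs, abs_of_nonpos (h0 j), abs_of_nonpos (h0 k)] at hk
    linarith [h0 k]

theorem mid [FiniteDimensional ℝ X] {T : X →L[ℝ] X →L[ℝ] X →L[ℝ] ℝ}
    (s12 : ∀ u v w, T u v w = T v u w) (s23 : ∀ u v w, T u v w = T u w v)
    (Γ : AddSubgroup X) {ι : Type} [Fintype ι] (ρ : ι → X →L[ℝ] ℝ) (τ : X →L[ℝ] ℝ)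
    (hρ : ∀ i, Disc Γ (ρ i)) (hτ : Disc Γ τ)
    (NT : ∀ x, τ x = 1 → (∀ i, ρ i x ≤ 0) → ∀ v, v ≠ 0 → τ v = 0 → (∀ i, ρ i v ≤ 0) →
      ∃ ε > 0, ∃ M : ℝ, ∀ s ∈ Γ, τ s = 1 → (∀ i, ρ i s ≤ 0) →
        (∃ t : ℝ, 0 ≤ t ∧ ‖s - (x + t • v)‖ ≤ ε) → M ≤ T s s s) :
    ∃ M : ℝ, ∀ s ∈ Γ, τ s = 1 → (∀ i, ρ i s ≤ 0) → M ≤ T s s s := by
  by_contra hcon
  push Not at hcon
  choose x hxΓ hxτ hxρ hxT using fun k : ℕ => hcon (-(k : ℝ))
  let l : Ultrafilter ℕ := Ultrafilter.of atTop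
  have hl : (l : Filter ℕ) ≤ atTop := Ultrafilter.of_le _
  choose I hI hI' using fun i => dichotomy Γ (ρ i) (hρ i) l x hxΓ (fun k => hxρ k i)
  have hJ : (⋂ i, I i) ∈ (l : Filter ℕ) := iInter_mem.2 hI
  set J := ⋂ i, I i with hJdef
  let V : Submodule ℝ X := Submodule.span ℝ (x '' J)
  let S : Set X := {s | s ∈ Γ ∧ τ s = 1 ∧ (∀ i, ρ i s ≤ 0) ∧ s ∈ V}
  let K : Set X := {v | τ v = 0 ∧ (∀ i, ρ i v ≤ 0) ∧ v ∈ V}
  have hxV : ∀ k ∈ J, x k ∈ V := fun k hk => Submodule.subset_span ⟨k, hk, rfl⟩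
  have hxS : ∀ k ∈ J, x k ∈ S := fun k hk => ⟨hxΓ k, hxτ k, hxρ k, hxV k hk⟩
  have H : Rec T S K := by
    intro s hs v hv
    by_cases hv0 : v = 0
    · refine ⟨fun j => j, fun _ => 0, T s s s, tendsto_natCast_atTop_atTop, tendsto_const_nhds,
        Eventually.of_forall fun j => ?_⟩
      simpa [hv0] using hs
    obtain ⟨ε, hε, M, hM⟩ := NT s hs.2.1 hs.2.2.1 v hv0 hv.1 hv.2.1
    obtain ⟨t, e, ht, he, hte⟩ := recur Γ (x '' J) (by rintro _ ⟨k, -, rfl⟩; exact hxΓ k) v hv.2.2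
    refine ⟨t, e, M, ht, he, ?_⟩
    have zero_of : ∀ A : X →L[ℝ] ℝ, Disc Γ A → A v = 0 → ∀ᶠ j in atTop, A (e j) = 0 := by
      rintro A ⟨δ, hδ, hd⟩ hAv
      have h1 : Tendsto (fun j => A (e j)) atTop (𝓝 0) := by
        simpa [Function.comp_def] using (A.continuous.tendsto 0).comp he
      filter_upwards [h1.eventually (Metric.ball_mem_nhds 0 hδ)] with j hj
      have := hd _ (hte j).1 (by simpa [hAv] using hj)
      simpa [hAv] using this
    have rows : ∀ i, ∀ᶠ j in atTop, ρ i (e j + t j • v) ≤ 0 := by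
      intro i
      rcases (hv.2.1 i).lt_or_eq with h | h
      · have h1 : Tendsto (fun j => ρ i (e j)) atTop (𝓝 0) := by
          simpa [Function.comp_def] using ((ρ i).continuous.tendsto 0).comp he
        have h2 := h1.add_atBot (ht.atTop_mul_const_of_neg h)
        filter_upwards [h2.eventually_le_atBot 0] with j hj
        simpa using hj
      · filter_upwards [zero_of _ (hρ i) h] with j hj
        simp [hj, h]
    filter_upwards [zero_of τ hτ hv.1, eventually_all.2 rows, ht.eventually_ge_atTop 0,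
      he.eventually (Metric.closedBall_mem_nhds 0 hε)] with j h1 h2 h3 h4
    have hmem : s + e j + t j • v ∈ S := by
      refine ⟨?_, ?_, fun i => ?_, ?_⟩
      · rw [add_assoc]; exact Γ.add_mem hs.1 (hte j).1
      · simp [hs.2.1, h1, hv.1]
      · rw [add_assoc, map_add]; linarith [hs.2.2.1 i, h2 i]
      · exact V.add_mem (V.add_mem hs.2.2.2 (hte j).2) (V.smul_mem _ hv.2.2)
    refine ⟨hmem, hM _ hmem.1 hmem.2.1 hmem.2.2.1 ⟨t j, h3, ?_⟩⟩
    have : s + e j + t j • v - (s + t j • v) = e j := by abel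
    rw [this]
    simpa using h4
  obtain ⟨r, d, lam, y, h0, h1, h2, h3, h4, h5, h6⟩ := flag ρ l _ V le_rfl x (by
    filter_upwards [hJ] with k hk using ⟨hxV k hk, hxρ k⟩)
  have hdV : ∀ i < r, d i ∈ V ∧ ∀ j, ρ j (d i) ≤ 0 := by
    intro i hi
    constructor
    · refine (Submodule.closed_of_finiteDimensional V).mem_of_tendsto (h4 i hi.le) ?_
      exact (h6 i hi.le).mono fun k hk => V.smul_mem _ hk.1
    · intro j
      refine le_of_tendsto (((ρ j).continuous.tendsto _).comp (h4 i hi.le)) ?_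
      filter_upwards [h6 i hi.le, (h2 i hi).eventually_ge_atTop 0] with k hk hp
      simp only [Function.comp, map_smul, smul_eq_mul]
      exact mul_nonpos_of_nonneg_of_nonpos (inv_nonneg.2 hp) (hk.2 j)
  have hτy : ∀ i ≤ r, (∀ k, τ (y i k) = 1) ∧ (i < r → τ (d i) = 0) := by
    have key : ∀ i < r, (∀ k, τ (y i k) = 1) → τ (d i) = 0 := by
      intro i hi hy
      have a1 := (τ.continuous.tendsto _).comp (h4 i hi.le)
      refine tendsto_nhds_unique a1 ((h2 i hi).inv_tendsto_atTop.congr fun k => ?_)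
      simp [hy k]
    intro i
    induction i with
    | zero => intro _; exact ⟨by rw [h0]; exact hxτ, fun h => key 0 h (by rw [h0]; exact hxτ)⟩
    | succ i ih =>
      intro hi
      have a1 := ih (by omega)
      have a2 : ∀ k, τ (y (i + 1) k) = 1 := by
        intro k
        have := a1.1 k
        rw [h1 i (by omega) k, map_add, map_smul, a1.2 (by omega)] at this
        simpa using this
      exact ⟨a2, fun h => key _ h a2⟩
  obtain ⟨M, hM⟩ := core s12 s23 H V (fun s hs => hs.2.2.2) (fun s hs => hs.2.2)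
    ⟨by simp, by simp, V.zero_mem⟩ (by
      intro u hu v hv c hc
      refine ⟨by simp [hu.1, hv.1], fun i => ?_, V.add_mem hu.2.2 (V.smul_mem _ hv.2.2)⟩
      rw [map_add, map_smul, smul_eq_mul]
      nlinarith [hu.2.1 i, hv.2.1 i]) l x (by filter_upwards [hJ] with k hk using hxS k hk) (by
      intro A hA hlim s hs
      have hz : ∀ j ∈ J, A (x j) = 0 := by
        intro j hj
        refine le_antisymm ?_ (hA _ (hxS j hj))
        have a1 : Tendsto (fun k => A (x k) + A (x k)) l (𝓝 0) := by simpa using hlim.add hlim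
        refine ge_of_tendsto a1 ?_
        have a2 := eventually_all.2 fun i => hI' i j (Set.mem_iInter.1 hj i)
        filter_upwards [a2, hJ] with k hk hkJ
        have := hA (x k + x k - x j) ⟨Γ.sub_mem (Γ.add_mem (hxΓ k) (hxΓ k)) (hxΓ j),
          by simp [hxτ], fun i => by simpa using hk i,
          V.sub_mem (V.add_mem (hxV k hkJ) (hxV k hkJ)) (hxV j hj)⟩
        rw [map_sub, map_add] at this
        linarith
      have : V ≤ LinearMap.ker (A : X →ₗ[ℝ] ℝ) := by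
        refine Submodule.span_le.2 ?_
        rintro _ ⟨j, hj, rfl⟩
        exact hz j hj
      exact this hs)
    r d lam y h0 h1 h2 h3 h4 h5 (fun i hi => (h6 i hi).mono fun k hk => hk.1)
    (fun i hi => ⟨(hτy i hi.le).2 hi, (hdV i hi).2, (hdV i hi).1⟩)
  have a1 : ∀ᶠ k : ℕ in (l : Filter ℕ), -M ≤ (k : ℝ) :=
    (tendsto_natCast_atTop_atTop.eventually_ge_atTop (-M)).filter_mono hl
  obtain ⟨k, hk1, hk2⟩ := (hM.and a1).exists
  linarith [hxT k]

end Pool.Agent.H.MP_0e8110_lc
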