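import Mathlib
import Pool.Agent.H.MP_0e8110_lc.Mid

namespace Pool.Agent.H.MP_0e8110_lc

open Filter Topology

set_option maxSynthPendingDepth 3

section
variable {X : Type} [NormedAddCommGroup X] [NormedSpace ℝ X]

/-- product of three functionals as a trilinear form -/
noncomputable def P3 (a b c : X →L[ℝ] ℝ) : X →L[ℝ] X →L[ℝ] X →L[ℝ] ℝ :=
  a.smulRight (b.smulRight c)

theorem P3_apply (a b c : X →L[ℝ] ℝ) (u v w : X) : P3 a b c u v w = a u * (b v * c w) := by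
  simp [P3]

/-- `g` is the diagonal of a symmetric trilinear form -/
def Cub (g : X → ℝ) : Prop :=
  ∃ T : X →L[ℝ] X →L[ℝ] X →L[ℝ] ℝ, (∀ u v w, T u v w = T v u w) ∧ (∀ u v w, T u v w = T u w v) ∧
    ∀ u, T u u u = g u

theorem Cub.prod (r : ℝ) (a b c : X →L[ℝ] ℝ) : Cub (fun u => r * (a u * (b u * c u))) := by
  refine ⟨(r / 6) • (P3 a b c + P3 a c b + P3 b a c + P3 b c a + P3 c a b + P3 c b a),
    fun u v w => ?_, fun u v w => ?_, fun u => ?_⟩ <;>
  simp only [smul_apply, add_apply, P3_apply, smul_eq_mul] <;> ring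

theorem Cub.sum {ι : Type} (s : Finset ι) (g : ι → X → ℝ) (h : ∀ i ∈ s, Cub (g i)) :
    Cub (fun u => ∑ i ∈ s, g i u) := by
  classical
  induction s using Finset.induction_on with
  | empty => exact ⟨0, by simp, by simp, by simp⟩
  | insert i s hi ih =>
    obtain ⟨T, h1, h2, h3⟩ := h i (by simp)
    obtain ⟨T', h1', h2', h3'⟩ := ih fun j hj => h j (by simp [hj])
    refine ⟨T + T', fun u v w => ?_, fun u v w => ?_, fun u => ?_⟩
    · simp only [add_apply]; rw [h1, h1']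
    · simp only [add_apply]; rw [h2, h2']
    · simp only [add_apply, Finset.sum_insert hi, h3, h3']

end

abbrev E (n : ℕ) := EuclideanSpace ℝ (Fin n)

/-- coordinate functional on the homogenised space -/
noncomputable def co {n : ℕ} (j : Fin n) : (E n × ℝ) →L[ℝ] ℝ :=
  (EuclideanSpace.proj j).comp (ContinuousLinearMap.fst ℝ _ _)

theorem co_apply {n : ℕ} (j : Fin n) (u : E n × ℝ) : co j u = u.1 j := rfl

theorem exists_T {n : ℕ} (f : MvPolynomial (Fin n) ℝ) (hf : f.totalDegree ≤ 3) :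
    ∃ T : (E n × ℝ) →L[ℝ] (E n × ℝ) →L[ℝ] (E n × ℝ) →L[ℝ] ℝ, (∀ u v w, T u v w = T v u w) ∧
      (∀ u v w, T u v w = T u w v) ∧
      ∀ u : E n × ℝ, u.2 = 1 → T u u u = MvPolynomial.eval (fun j => u.1 j) f := by
  have key : ∀ s ∈ f.support, ∃ a b c : (E n × ℝ) →L[ℝ] ℝ, ∀ u : E n × ℝ, u.2 = 1 →
      a u * (b u * c u) = ∏ i ∈ s.support, u.1 i ^ s i := by
    intro s hs
    have h1 : (Finsupp.toMultiset s).card ≤ 3 := by
      rw [Finsupp.card_toMultiset]
      exact (MvPolynomial.le_totalDegree hs).trans hf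
    have h2 : ∀ u : E n × ℝ, ∏ i ∈ s.support, u.1 i ^ s i =
        ((Finsupp.toMultiset s).map (fun j => u.1 j)).prod := by
      intro u
      rw [Finsupp.toMultiset_map, Finsupp.prod_toMultiset, Finsupp.prod_mapDomain_index]
      · rfl
      · simp
      · intro a m k; rw [pow_add]
    simp only [h2]
    generalize Finsupp.toMultiset s = m at h1
    let τ := ContinuousLinearMap.snd ℝ (E n) ℝ
    have hτ : ∀ u : E n × ℝ, τ u = u.2 := fun _ => rfl
    have : m.card = 0 ∨ m.card = 1 ∨ m.card = 2 ∨ m.card = 3 := by omega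
    rcases this with h | h | h | h
    · rw [Multiset.card_eq_zero] at h
      exact ⟨τ, τ, τ, fun u hu => by simp [h, hτ, hu]⟩
    · obtain ⟨i, rfl⟩ := Multiset.card_eq_one.1 h
      exact ⟨co i, τ, τ, fun u hu => by simp [hτ, hu, co_apply]⟩
    · obtain ⟨i, j, rfl⟩ := Multiset.card_eq_two.1 h
      exact ⟨co i, co j, τ, fun u hu => by simp [hτ, hu, co_apply]⟩
    · obtain ⟨i, j, k, rfl⟩ := Multiset.card_eq_three.1 h
      exact ⟨co i, co j, co k, fun u hu => by simp [co_apply]⟩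
  choose! a b c habc using key
  obtain ⟨T, h1, h2, h3⟩ := Cub.sum f.support
    (fun s u => f.coeff s * (a s u * (b s u * c s u))) (fun s _ => Cub.prod _ _ _ _)
  refine ⟨T, h1, h2, fun u hu => ?_⟩
  rw [h3, MvPolynomial.eval_eq]
  exact Finset.sum_congr rfl fun s hs => by rw [habc s hs u hu]

/-- integer points of the homogenised space -/
def Gam (n : ℕ) : AddSubgroup (E n × ℝ) where
  carrier := {u | (∀ j, ∃ z : ℤ, u.1 j = z) ∧ ∃ z : ℤ, u.2 = z}
  zero_mem' := ⟨fun _ => ⟨0, by simp⟩, 0, by simp⟩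
  add_mem' := by
    rintro u v ⟨h1, z, hz⟩ ⟨h2, z', hz'⟩
    refine ⟨fun j => ?_, z + z', by simp [hz, hz']⟩
    obtain ⟨a, ha⟩ := h1 j
    obtain ⟨b, hb⟩ := h2 j
    exact ⟨a + b, by simp [ha, hb]⟩
  neg_mem' := by
    rintro u ⟨h1, z, hz⟩
    refine ⟨fun j => ?_, -z, by simp [hz]⟩
    obtain ⟨a, ha⟩ := h1 j
    exact ⟨-a, by simp [ha]⟩

/-- homogenised row -/
noncomputable def row {n : ℕ} (a : Fin n → ℚ) (b : ℚ) : (E n × ℝ) →L[ℝ] ℝ :=
  ∑ j, (a j : ℝ) • co j - (b : ℝ) • ContinuousLinearMap.snd ℝ (E n) ℝ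

theorem row_apply {n : ℕ} (a : Fin n → ℚ) (b : ℚ) (u : E n × ℝ) :
    row a b u = ∑ j, (a j : ℝ) * u.1 j - b * u.2 := by
  simp [row, co_apply]

theorem disc_of_int {X : Type} [NormedAddCommGroup X] [NormedSpace ℝ X] (Γ : AddSubgroup X)
    (A : X →L[ℝ] ℝ) (N : ℝ) (hN : 0 < N) (h : ∀ g ∈ Γ, ∃ z : ℤ, N * A g = z) : Disc Γ A := by
  refine ⟨1 / N, by positivity, fun g hg hlt => ?_⟩
  obtain ⟨z, hz⟩ := h g hg
  have h1 : |(z : ℝ)| < 1 := by
    rw [← hz, abs_mul, abs_of_pos hN]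
    rw [lt_div_iff₀ hN] at hlt
    linarith
  have h2 : z = 0 := by
    have : |z| < 1 := by exact_mod_cast h1
    exact Int.abs_lt_one_iff.1 this
  rw [h2] at hz
  simpa [hN.ne'] using hz

theorem disc_row {n : ℕ} (a : Fin n → ℚ) (b : ℚ) : Disc (Gam n) (row a b) := by
  have hden : ∀ (q : ℚ) (N : ℕ), q.den ∣ N → ∃ z : ℤ, (N : ℝ) * q = z := by
    rintro q N ⟨k, rfl⟩
    refine ⟨k * q.num, ?_⟩
    have : (q.den : ℝ) * q = q.num := by exact_mod_cast Rat.den_mul_eq_num q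
    push_cast
    rw [← this]; ring
  let N : ℕ := (∏ j, (a j).den) * b.den
  have hN : 0 < N := Nat.mul_pos (Finset.prod_pos fun j _ => (a j).den_pos) b.den_pos
  refine disc_of_int _ _ (N : ℝ) (by exact_mod_cast hN) ?_
  rintro g ⟨h1, z, hz⟩
  choose w hw using h1
  choose p hp using fun j => hden (a j) N
    (Dvd.dvd.mul_right (Finset.dvd_prod_of_mem _ (Finset.mem_univ j)) _)
  obtain ⟨p', hp'⟩ := hden b N (Dvd.intro_left _ rfl)
  refine ⟨∑ j, p j * w j - p' * z, ?_⟩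
  rw [row_apply, mul_sub, Finset.mul_sum]
  push_cast
  rw [← hp', hz]
  congr 1
  · exact Finset.sum_congr rfl fun j _ => by rw [← hp j, hw j]; ring
  · ring

theorem thin {n m : ℕ} (A : Fin m → Fin n → ℚ) (b : Fin m → ℚ) (f : MvPolynomial (Fin n) ℝ)
    (hf : f.totalDegree ≤ 3)
    (h : ∀ y d : E n, d ≠ 0 → (∀ t : ℝ, 0 ≤ t → ∀ i, ∑ j, (A i j : ℝ) * (y + t • d) j ≤ b i) →
      ∃ ε > 0, ∃ M : ℝ, ∀ x : E n, (∀ i, ∑ j, (A i j : ℝ) * x j ≤ b i) → (∀ j, ∃ z : ℤ, x j = z) →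
        (∃ t : ℝ, 0 ≤ t ∧ ‖x - (y + t • d)‖ ≤ ε) → M ≤ MvPolynomial.eval (fun j => x j) f) :
    ∃ M : ℝ, ∀ x : E n, (∀ i, ∑ j, (A i j : ℝ) * x j ≤ b i) → (∀ j, ∃ z : ℤ, x j = z) →
      M ≤ MvPolynomial.eval (fun j => x j) f := by
  obtain ⟨T, s12, s23, hT⟩ := exists_T f hf
  obtain ⟨M, hM⟩ := mid s12 s23 (Gam n) (fun i => row (A i) (b i))
    (ContinuousLinearMap.snd ℝ (E n) ℝ) (fun i => disc_row _ _)
    (disc_of_int _ _ 1 one_pos (by rintro g ⟨-, z, hz⟩; exact ⟨z, by simpa using hz⟩)) (by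
      rintro ⟨y, y1⟩ hy1 hy ⟨d, d0⟩ hd hd0 hdρ
      have hy1' : y1 = 1 := hy1
      have hd0' : d0 = 0 := hd0
      subst hy1' hd0'
      obtain ⟨ε, hε, M, hM⟩ := h y d (fun h0 => hd (by simp [h0])) (by
        intro t ht i
        have a1 := hy i
        have a2 := hdρ i
        rw [row_apply] at a1 a2
        have : ∑ j, (A i j : ℝ) * (y + t • d) j =
            ∑ j, (A i j : ℝ) * y j + t * ∑ j, (A i j : ℝ) * d j := by
          rw [Finset.mul_sum, ← Finset.sum_add_distrib]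
          exact Finset.sum_congr rfl fun j _ => by simp; ring
        rw [this]
        simp only [mul_one, mul_zero, sub_zero] at a1 a2
        nlinarith)
      refine ⟨ε, hε, M, ?_⟩
      rintro ⟨s, s1⟩ hs hs1 hsρ ⟨t, ht, hst⟩
      have hs1' : s1 = 1 := hs1
      subst hs1'
      rw [hT _ rfl]
      refine hM s (fun i => ?_) hs.1 ⟨t, ht, ?_⟩
      · have a1 := hsρ i
        rw [row_apply] at a1
        simp only [mul_one] at a1
        linarith
      · exact le_trans (norm_fst_le ((s, (1 : ℝ)) - ((y, (1 : ℝ)) + t • (d, (0 : ℝ))))) hst)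
  refine ⟨M, fun x hx hz => ?_⟩
  have := hM (x, 1) ⟨hz, 1, by simp⟩ rfl (fun i => by
    rw [row_apply]; simp only [mul_one]; linarith [hx i])
  rwa [hT _ rfl] at this

end Pool.Agent.H.MP_0e8110_lc
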